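import Pool.Agent.Y969.SM.Stm2

/-!
Project SX, job SX-EUT (helper983): the product of the local sums against the truncated sum over
the tuples.
-/

set_option autoImplicit false

namespace Pool.Agent.Y983.SX.EUT

open Finset Filter Topology MeasureTheory Complex
open Pool.Agent.Y969.GP (ff ht lam FR PX cr V mB)
open Pool.Agent.Y969.SM
open Pool.Agent.W184.NZ (w1)

noncomputable section

/-- the primes up to `y` -/
def PP (y : ℕ) : Finset ℕ := (Finset.range (y + 1)).filter Nat.Prime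

theorem PP_prime {y p : ℕ} (h : p ∈ PP y) : p.Prime := (Finset.mem_filter.mp h).2

theorem mem_PP {y p : ℕ} (h1 : p.Prime) (h2 : p ≤ y) : p ∈ PP y :=
  Finset.mem_filter.mpr ⟨Finset.mem_range.mpr (Nat.lt_succ_of_le h2), h1⟩

/-- the exponents -/
def kk {n : ℕ} (q : Fin n → ℕ × ℕ) (p : ℕ) : Fin n → ℤ := fun j =>
  ((q j).1.factorization p : ℤ) - ((q j).2.factorization p : ℤ)

theorem L1 {P : Finset ℕ} {m : ℕ} (hm : m ≠ 0) (hP : ∀ p, p.Prime → p ∣ m → p ∈ P) :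
    (m : ℝ) = ∏ p ∈ P, (p : ℝ) ^ m.factorization p := by
  have h1 : m.factorization.support ⊆ P := by
    intro p hp
    rw [Nat.support_factorization, Nat.mem_primeFactors] at hp
    exact hP p hp.1 hp.2.1
  have h2 := Nat.prod_factorization_pow_eq_self hm
  rw [Finsupp.prod_of_support_subset _ h1 _ (fun _ _ => pow_zero _)] at h2
  conv_lhs => rw [← h2]
  rw [Nat.cast_prod]
  exact Finset.prod_congr rfl fun p _ => Nat.cast_pow _ _

theorem L1log {P : Finset ℕ} (hPp : ∀ p ∈ P, p.Prime) {m : ℕ} (hm : m ≠ 0)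
    (hP : ∀ p, p.Prime → p ∣ m → p ∈ P) :
    Real.log m = ∑ p ∈ P, (m.factorization p : ℝ) * Real.log p := by
  rw [L1 hm hP, Real.log_prod]
  · apply Finset.sum_congr rfl
    intro p hp
    rw [Real.log_pow]
  · intro p hp
    exact pow_ne_zero _ (Nat.cast_ne_zero.mpr (hPp p hp).ne_zero)

theorem w2_eq {P : Finset ℕ} {H L : ℕ} (hPp : ∀ p ∈ P, p.Prime) (hH : H ≠ 0) (hL : L ≠ 0)
    (hHP : ∀ p, p.Prime → p ∣ H → p ∈ P) (hLP : ∀ p, p.Prime → p ∣ L → p ∈ P) :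
    w2 (H, L) = ∏ p ∈ P, ((p : ℝ) ^ (min (H.factorization p) (L.factorization p)) /
      ((p : ℝ) ^ H.factorization p * (p : ℝ) ^ L.factorization p) *
      (1 + (((H.factorization p : ℤ) - L.factorization p).natAbs : ℝ) *
        (((p:ℝ) - 1) / ((p:ℝ) + 1)))) := by
  rw [Finset.prod_mul_distrib, Finset.prod_div_distrib, Finset.prod_mul_distrib]
  unfold w2
  congr 1
  · unfold w1
    have hg : Nat.gcd H L ≠ 0 := Nat.gcd_ne_zero_left hH
    rw [← L1 hH hHP, ← L1 hL hLP]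
    congr 1
    rw [L1 hg (fun p hp hd => hHP p hp (hd.trans (Nat.gcd_dvd_left H L)))]
    apply Finset.prod_congr rfl
    intro p _
    rw [Nat.factorization_gcd hH hL]
    rfl
  · apply Finset.prod_subset
    · intro p hp
      rw [Nat.mem_primeFactors] at hp
      rcases (Nat.Prime.dvd_mul hp.1).mp hp.2.1 with h | h
      · exact hHP p hp.1 h
      · exact hLP p hp.1 h
    · intro p hp hp2
      have h1 : ¬ p ∣ H * L := fun h =>
        hp2 (Nat.mem_primeFactors.mpr ⟨hPp p hp, h, mul_ne_zero hH hL⟩)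
      have h2 : H.factorization p = 0 :=
        Nat.factorization_eq_zero_of_not_dvd fun h => h1 (h.mul_right _)
      have h3 : L.factorization p = 0 :=
        Nat.factorization_eq_zero_of_not_dvd fun h => h1 (h.mul_left _)
      simp only [h2, h3]
      simp

theorem lc_eq {n : ℕ} {p : ℕ} (hp : p.Prime) (A B : Fin n → ℕ) (hAB : ∀ j, A j = 0 ∨ B j = 0) :
    lc p (fun j => (A j : ℤ) - (B j : ℤ)) =
      (p : ℝ) ^ (min (∑ j, A j) (∑ j, B j)) / ((p : ℝ) ^ (∑ j, A j) * (p : ℝ) ^ (∑ j, B j)) *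
      (1 + ((((∑ j, A j : ℕ) : ℤ) - ((∑ j, B j : ℕ) : ℤ)).natAbs : ℝ) *
        (((p:ℝ) - 1) / ((p:ℝ) + 1))) := by
  unfold lc
  have e1 : ∑ j, ((A j : ℤ) - (B j : ℤ)) = ((∑ j, A j : ℕ) : ℤ) - ((∑ j, B j : ℕ) : ℤ) := by
    rw [Finset.sum_sub_distrib]
    push_cast
    rfl
  have e2 : ∑ j, ((A j : ℤ) - (B j : ℤ)).natAbs = (∑ j, A j) + ∑ j, B j := by
    rw [← Finset.sum_add_distrib]
    apply Finset.sum_congr rfl
    intro j _
    rcases hAB j with h | h <;> rw [h] <;> omega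
  rw [e1]
  congr 1
  have hp0 : (0:ℝ) < p := Nat.cast_pos.mpr hp.pos
  unfold kx
  rw [e2, e1]
  set a := ∑ j, A j
  set b := ∑ j, B j
  have h3 : (((a + b + ((a : ℤ) - (b : ℤ)).natAbs : ℕ) : ℝ)) = 2 * ((a : ℝ) + b) - 2 * (min a b : ℕ) := by
    have h4 : a + b + ((a : ℤ) - (b : ℤ)).natAbs + 2 * min a b = 2 * (a + b) := by omega
    have h5 : (((a + b + ((a : ℤ) - (b : ℤ)).natAbs + 2 * min a b : ℕ) : ℝ)) =
        ((2 * (a + b) : ℕ) : ℝ) := by rw [h4]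
    push_cast at h5 ⊢
    linarith
  rw [h3, ← pow_add, ← Real.rpow_natCast, ← Real.rpow_natCast, ← Real.rpow_sub hp0]
  congr 1
  push_cast
  ring

/-- the tuples of reduced pairs with prime factors in `P` -/
def Q (P : Finset ℕ) {n : ℕ} (q : Fin n → ℕ × ℕ) : Prop :=
  ∀ j, (q j).1 ≠ 0 ∧ (q j).2 ≠ 0 ∧ Nat.Coprime (q j).1 (q j).2 ∧
    (∀ p, p.Prime → p ∣ (q j).1 → p ∈ P) ∧ (∀ p, p.Prime → p ∣ (q j).2 → p ∈ P)

theorem fac_zero {a b p : ℕ} (hp : p.Prime) (h : Nat.Coprime a b) :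
    a.factorization p = 0 ∨ b.factorization p = 0 := by
  by_contra hc
  push Not at hc
  have h1 : p ∣ a := by
    by_contra h2
    exact hc.1 (Nat.factorization_eq_zero_of_not_dvd h2)
  have h2 : p ∣ b := by
    by_contra h3
    exact hc.2 (Nat.factorization_eq_zero_of_not_dvd h3)
  exact Nat.not_coprime_of_dvd_of_dvd hp.one_lt h1 h2 h

variable {n : ℕ} {P : Finset ℕ} {q : Fin n → ℕ × ℕ}

theorem fac_prod {m : Fin n → ℕ} (hm : ∀ j, m j ≠ 0) (p : ℕ) :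
    (∏ j, m j).factorization p = ∑ j, (m j).factorization p := by
  rw [Nat.factorization_prod fun j _ => hm j, Finsupp.finsetSum_apply]

theorem prime_dvd_prod {m : Fin n → ℕ} (hP : ∀ j, ∀ p, p.Prime → p ∣ m j → p ∈ P) :
    ∀ p, p.Prime → p ∣ ∏ j, m j → p ∈ P := by
  intro p hp hd
  obtain ⟨j, _, hj⟩ := (Prime.dvd_finsetProd_iff hp.prime _).mp hd
  exact hP j p hp hj

theorem w2_q (hPp : ∀ p ∈ P, p.Prime) (hq : Q P q) :
    w2 (∏ j, (q j).1, ∏ j, (q j).2) = ∏ p ∈ P, lc p (kk q p) := by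
  rw [w2_eq hPp (Finset.prod_ne_zero_iff.mpr fun j _ => (hq j).1)
    (Finset.prod_ne_zero_iff.mpr fun j _ => (hq j).2.1)
    (prime_dvd_prod fun j => (hq j).2.2.2.1) (prime_dvd_prod fun j => (hq j).2.2.2.2)]
  apply Finset.prod_congr rfl
  intro p hp
  rw [fac_prod (fun j => (hq j).1), fac_prod (fun j => (hq j).2.1)]
  exact (lc_eq (hPp p hp) _ _ fun j => fac_zero (hPp p hp) (hq j).2.2.1).symm

theorem natAbs_kk {p : ℕ} (hp : p.Prime) (hq : Q P q) (j : Fin n) :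
    (kk q p j).natAbs = (q j).1.factorization p + (q j).2.factorization p := by
  unfold kk
  rcases fac_zero hp (hq j).2.2.1 with h | h <;> rw [h] <;> omega

theorem ht_q (hPp : ∀ p ∈ P, p.Prime) (hq : Q P q) :
    ∏ j, ht (q j) = ∏ p ∈ P, (p : ℝ) ^ (∑ j, (kk q p j).natAbs) := by
  have h1 : ∀ j, ht (q j) = ∏ p ∈ P, (p : ℝ) ^ (kk q p j).natAbs := by
    intro j
    unfold ht
    rw [L1 (hq j).1 (hq j).2.2.2.1, L1 (hq j).2.1 (hq j).2.2.2.2, ← Finset.prod_mul_distrib]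
    apply Finset.prod_congr rfl
    intro p hp
    rw [natAbs_kk (hPp p hp) hq, pow_add]
  rw [Finset.prod_congr rfl fun j _ => h1 j, Finset.prod_comm]
  exact Finset.prod_congr rfl fun p _ => Finset.prod_pow_eq_pow_sum _ _ _

theorem exp_q (hPp : ∀ p ∈ P, p.Prime) (hq : Q P q) (c : Fin n → ℝ) :
    ∏ j, cexp (I * ((c j * lam (q j) : ℝ) : ℂ)) =
      ∏ p ∈ P, ∏ j, cexp (-(I * ((c j * Real.log p * kk q p j : ℝ) : ℂ))) := by
  rw [Finset.prod_comm]
  apply Finset.prod_congr rfl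
  intro j _
  rw [← Complex.exp_sum]
  congr 1
  rw [Finset.sum_neg_distrib, ← Finset.mul_sum, ← mul_neg, ← Complex.ofReal_sum,
    ← Complex.ofReal_neg]
  congr 2
  unfold lam
  rw [L1log hPp (hq j).1 (hq j).2.2.2.1, L1log hPp (hq j).2.1 (hq j).2.2.2.2,
    ← Finset.sum_sub_distrib, Finset.mul_sum, ← Finset.sum_neg_distrib]
  apply Finset.sum_congr rfl
  intro p _
  unfold kk
  push_cast
  ring

/-- the local terms -/
def av (c : Fin n → ℝ) (p : ℕ) (k : Fin n → ℤ) : ℂ :=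
  (lc p k : ℂ) * ∏ j, cexp (-(I * ((c j * Real.log p * k j : ℝ) : ℂ)))

theorem val_q (hPp : ∀ p ∈ P, p.Prime) (hq : Q P q) (c : Fin n → ℝ) :
    (w2 (∏ j, (q j).1, ∏ j, (q j).2) : ℂ) * ∏ j, cexp (I * ((c j * lam (q j) : ℝ) : ℂ)) =
      ∏ p ∈ P, av c p (kk q p) := by
  rw [w2_q hPp hq, exp_q hPp hq, Complex.ofReal_prod, ← Finset.prod_mul_distrib]
  rfl

/-- the box of exponents -/
def BR (n R : ℕ) : Finset (Fin n → ℤ) := Fintype.piFinset fun _ => Finset.Icc (-(R : ℤ)) R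

theorem kk_inj {q' : Fin n → ℕ × ℕ} (hq : Q P q) (hq' : Q P q') (hPp : ∀ p ∈ P, p.Prime)
    (h : ∀ p ∈ P, kk q p = kk q' p) : q = q' := by
  funext j
  have h0 : ∀ p ∈ P, (q j).1.factorization p = (q' j).1.factorization p ∧
      (q j).2.factorization p = (q' j).2.factorization p := by
    intro p hp
    have h1 := congrFun (h p hp) j
    unfold kk at h1
    have h2 := fac_zero (hPp p hp) (hq j).2.2.1
    have h3 := fac_zero (hPp p hp) (hq' j).2.2.1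
    omega
  have hz : ∀ (m p : ℕ), (∀ p, p.Prime → p ∣ m → p ∈ P) → p ∉ P → m.factorization p = 0 := by
    intro m p hm hpP
    by_cases hp : p.Prime
    · exact Nat.factorization_eq_zero_of_not_dvd fun hd => hpP (hm p hp hd)
    · exact Nat.factorization_eq_zero_of_not_prime _ hp
  apply Prod.ext
  · apply Nat.eq_of_factorization_eq (hq j).1 (hq' j).1
    intro p
    by_cases hp : p ∈ P
    · exact (h0 p hp).1
    · rw [hz _ p (hq j).2.2.2.1 hp, hz _ p (hq' j).2.2.2.1 hp]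
  · apply Nat.eq_of_factorization_eq (hq j).2.1 (hq' j).2.1
    intro p
    by_cases hp : p ∈ P
    · exact (h0 p hp).2
    · rw [hz _ p (hq j).2.2.2.2 hp, hz _ p (hq' j).2.2.2.2 hp]

theorem fac_prodpow (hPp : ∀ p ∈ P, p.Prime) (e : ℕ → ℕ) {p : ℕ} (hp : p ∈ P) :
    (∏ r ∈ P, r ^ e r).factorization p = e p := by
  rw [Nat.factorization_prod fun r hr => pow_ne_zero _ (hPp r hr).ne_zero,
    Finsupp.finsetSum_apply, Finset.sum_eq_single p]
  · rw [Nat.factorization_pow, Finsupp.smul_apply, (hPp p hp).factorization_self, smul_eq_mul,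
      mul_one]
  · intro r hr hrp
    rw [Nat.factorization_pow, Finsupp.smul_apply,
      Nat.factorization_eq_zero_of_not_dvd, smul_zero]
    intro hd
    exact hrp (((Nat.prime_dvd_prime_iff_eq (hPp p hp) (hPp r hr)).mp hd).symm)
  · intro h
    exact absurd hp h

theorem dvd_prodpow (hPp : ∀ p ∈ P, p.Prime) (e : ℕ → ℕ) :
    ∀ p, p.Prime → p ∣ ∏ r ∈ P, r ^ e r → p ∈ P := by
  intro p hp hd
  obtain ⟨r, hr, hj⟩ := (Prime.dvd_finsetProd_iff hp.prime _).mp hd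
  have h1 := hp.dvd_of_dvd_pow hj
  rwa [(Nat.prime_dvd_prime_iff_eq hp (hPp r hr)).mp h1]

theorem kk_surj (hPp : ∀ p ∈ P, p.Prime) (x : ℕ → Fin n → ℤ) :
    ∃ q : Fin n → ℕ × ℕ, Q P q ∧ ∀ p ∈ P, kk q p = x p := by
  let q : Fin n → ℕ × ℕ := fun j =>
    (∏ r ∈ P, r ^ (x r j).toNat, ∏ r ∈ P, r ^ (-(x r j)).toNat)
  refine ⟨q, fun j => ⟨?_, ?_, ?_, ?_, ?_⟩, fun p hp => ?_⟩
  · exact Finset.prod_ne_zero_iff.mpr fun r hr => pow_ne_zero _ (hPp r hr).ne_zero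
  · exact Finset.prod_ne_zero_iff.mpr fun r hr => pow_ne_zero _ (hPp r hr).ne_zero
  · apply Nat.Coprime.symm
    apply Nat.Coprime.symm
    by_contra hc
    obtain ⟨p, hp, h1, h2⟩ := Nat.Prime.not_coprime_iff_dvd.mp hc
    have hpP := dvd_prodpow hPp _ p hp h1
    have e1 := fac_prodpow hPp (fun r => (x r j).toNat) hpP
    have e2 := fac_prodpow hPp (fun r => (-(x r j)).toNat) hpP
    have n1 : (∏ r ∈ P, r ^ (x r j).toNat) ≠ 0 :=
      Finset.prod_ne_zero_iff.mpr fun r hr => pow_ne_zero _ (hPp r hr).ne_zero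
    have n2 : (∏ r ∈ P, r ^ (-(x r j)).toNat) ≠ 0 :=
      Finset.prod_ne_zero_iff.mpr fun r hr => pow_ne_zero _ (hPp r hr).ne_zero
    have f1 := hp.factorization_pos_of_dvd n1 h1
    have f2 := hp.factorization_pos_of_dvd n2 h2
    rw [e1] at f1
    rw [e2] at f2
    omega
  · exact dvd_prodpow hPp _
  · exact dvd_prodpow hPp _
  · funext j
    change (((∏ r ∈ P, r ^ (x r j).toNat).factorization p : ℕ) : ℤ) -
      (((∏ r ∈ P, r ^ (-(x r j)).toNat).factorization p : ℕ) : ℤ) = x p j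
    rw [fac_prodpow hPp (fun r => (x r j).toNat) hp,
      fac_prodpow hPp (fun r => (-(x r j)).toNat) hp]
    omega

theorem cast_N (q : Fin n → ℕ × ℕ) :
    ((∏ j, ((q j).1 * (q j).2) : ℕ) : ℝ) = ∏ j, ht (q j) := by
  rw [Nat.cast_prod]
  exact Finset.prod_congr rfl fun j _ => by rw [Nat.cast_mul]; rfl

theorem Q_of_mem {y W : ℕ} (hq : q ∈ Fintype.piFinset fun _ : Fin n => FR W)
    (h2 : ∀ p : ℕ, p.Prime → p ∣ ∏ j, ((q j).1 * (q j).2) → p ≤ y) : Q (PP y) q := by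
  intro j
  have h3 := Finset.mem_filter.mp (Fintype.mem_piFinset.mp hq j)
  have h4 := Finset.mem_filter.mp h3.1
  have h5 := Finset.mem_product.mp h4.1
  have h6 := Finset.mem_Icc.mp h5.1
  have h7 := Finset.mem_Icc.mp h5.2
  have h8 : (q j).1 * (q j).2 ∣ ∏ j, ((q j).1 * (q j).2) :=
    Finset.dvd_prod_of_mem (fun j => (q j).1 * (q j).2) (Finset.mem_univ j)
  refine ⟨by omega, by omega, h3.2, fun p hp hd => ?_, fun p hp hd => ?_⟩
  · exact mem_PP hp (h2 p hp ((hd.mul_right _).trans h8))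
  · exact mem_PP hp (h2 p hp ((hd.mul_left _).trans h8))

theorem mem_of_Q {y W : ℕ} (hq : Q (PP y) q) (hW : ∏ j, ht (q j) ≤ W) :
    (q ∈ Fintype.piFinset fun _ : Fin n => FR W) ∧
      (∀ p : ℕ, p.Prime → p ∣ ∏ j, ((q j).1 * (q j).2) → p ≤ y) ∧
      ∀ j, (q j).1 ≤ W ∧ (q j).2 ≤ W := by
  have hN : ∏ j, ((q j).1 * (q j).2) ≤ W := by
    rw [← cast_N] at hW
    exact_mod_cast hW
  have hN0 : 0 < ∏ j, ((q j).1 * (q j).2) :=
    Nat.pos_of_ne_zero (Finset.prod_ne_zero_iff.mpr fun j _ => mul_ne_zero (hq j).1 (hq j).2.1)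
  have h1 : ∀ j, (q j).1 * (q j).2 ≤ W := fun j =>
    (Nat.le_of_dvd hN0 (Finset.dvd_prod_of_mem (fun j => (q j).1 * (q j).2)
      (Finset.mem_univ j))).trans hN
  have h2 : ∀ j, (q j).1 ≤ W ∧ (q j).2 ≤ W := fun j =>
    ⟨(Nat.le_mul_of_pos_right _ (Nat.pos_of_ne_zero (hq j).2.1)).trans (h1 j),
      (Nat.le_mul_of_pos_left _ (Nat.pos_of_ne_zero (hq j).1)).trans (h1 j)⟩
  refine ⟨Fintype.mem_piFinset.mpr fun j => ?_, fun p hp hd => ?_, h2⟩
  · refine Finset.mem_filter.mpr ⟨Finset.mem_filter.mpr ⟨Finset.mem_product.mpr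
      ⟨Finset.mem_Icc.mpr ⟨Nat.pos_of_ne_zero (hq j).1, (h2 j).1⟩,
      Finset.mem_Icc.mpr ⟨Nat.pos_of_ne_zero (hq j).2.1, (h2 j).2⟩⟩, h1 j⟩, (hq j).2.2.1⟩
  · obtain ⟨j, _, hj⟩ := (Prime.dvd_finsetProd_iff hp.prime _).mp hd
    have h3 : p ∈ PP y := by
      rcases (Nat.Prime.dvd_mul hp).mp hj with h | h
      · exact (hq j).2.2.2.1 p hp h
      · exact (hq j).2.2.2.2 p hp h
    exact Nat.lt_succ_iff.mp (Finset.mem_range.mp (Finset.mem_filter.mp h3).1)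

open Classical in
/-- the truncated sum -/
def TS {n : ℕ} (y W : ℕ) (c : Fin n → ℝ) : ℂ :=
  ∑ q ∈ (Fintype.piFinset fun _ : Fin n => FR W).filter
        (fun q => ∏ j, ht (q j) ≤ W ∧ ∀ p : ℕ, p.Prime → p ∣ ∏ j, ((q j).1 * (q j).2) → p ≤ y),
      (w2 (∏ j, (q j).1, ∏ j, (q j).2) : ℂ) * ∏ j, cexp (I * ((c j * lam (q j) : ℝ) : ℂ))

/-- the size of the exponents -/
def SZ {n : ℕ} {y : ℕ} (x : PP y → Fin n → ℤ) : ℝ :=
  ∏ p : PP y, ((p : ℕ) : ℝ) ^ (∑ j, (x p j).natAbs)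

open Classical in
theorem finite_id {y W R : ℕ} (hR : W ≤ R) (c : Fin n → ℝ) :
    TS y W c = ∑ x ∈ (Fintype.piFinset fun _ : PP y => BR n R).filter (fun x => SZ x ≤ W),
      ∏ p : PP y, av c p (x p) := by
  unfold TS
  have hPp : ∀ p ∈ PP y, p.Prime := fun p hp => PP_prime hp
  have hsz : ∀ q : Fin n → ℕ × ℕ, Q (PP y) q → SZ (fun p : PP y => kk q (p : ℕ)) = ∏ j, ht (q j) := by
    intro q hq
    rw [ht_q hPp hq]
    exact Finset.prod_coe_sort (PP y) (fun p => (p : ℝ) ^ (∑ j, (kk q p j).natAbs))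
  apply Finset.sum_bij (fun (q : Fin n → ℕ × ℕ) _ => fun p : PP y => kk q (p : ℕ))
  · intro q hq
    obtain ⟨h1, h2, h3⟩ := Finset.mem_filter.mp hq
    have hQ := Q_of_mem h1 h3
    refine Finset.mem_filter.mpr ⟨Fintype.mem_piFinset.mpr fun p => ?_, ?_⟩
    · refine Fintype.mem_piFinset.mpr fun j => ?_
      have h4 := natAbs_kk (hPp p p.2) hQ j
      have h5 := (mem_of_Q hQ h2).2.2 j
      have h6 := Nat.factorization_lt (p : ℕ) (hQ j).1
      have h7 := Nat.factorization_lt (p : ℕ) (hQ j).2.1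
      have h8 := fac_zero (hPp p p.2) (hQ j).2.2.1
      rw [Finset.mem_Icc]
      omega
    · rw [hsz q hQ]
      exact h2
  · intro q hq q' hq' h
    obtain ⟨h1, h2, h3⟩ := Finset.mem_filter.mp hq
    obtain ⟨h1', h2', h3'⟩ := Finset.mem_filter.mp hq'
    exact kk_inj (Q_of_mem h1 h3) (Q_of_mem h1' h3') hPp fun p hp => congrFun h ⟨p, hp⟩
  · intro x hx
    obtain ⟨h1, h2⟩ := Finset.mem_filter.mp hx
    obtain ⟨q, hQ, hq⟩ := kk_surj hPp (fun p => if h : p ∈ PP y then x ⟨p, h⟩ else 0)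
    have h3 : (fun p : PP y => kk q (p : ℕ)) = x := by
      funext p
      rw [hq p p.2, dif_pos p.2]
    have h4 : ∏ j, ht (q j) ≤ W := by
      rw [← hsz q hQ, h3]
      exact h2
    have h5 := mem_of_Q hQ h4
    exact ⟨q, Finset.mem_filter.mpr ⟨h5.1, h4, h5.2.1⟩, h3⟩
  · intro q hq
    obtain ⟨h1, h2, h3⟩ := Finset.mem_filter.mp hq
    have hQ := Q_of_mem h1 h3
    rw [val_q hPp hQ]
    exact (Finset.prod_coe_sort (PP y) (fun p => av c p (kk q p))).symm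

theorem lc_nonneg {p : ℕ} (hp : p.Prime) (k : Fin n → ℤ) : 0 ≤ lc p k := by
  unfold lc
  have h1 : (1:ℝ) ≤ p := by exact_mod_cast hp.one_le
  have h2 : 0 ≤ ((p:ℝ) - 1) / ((p:ℝ) + 1) := div_nonneg (by linarith) (by linarith)
  positivity

theorem norm_av {p : ℕ} (hp : p.Prime) (c : Fin n → ℝ) (k : Fin n → ℤ) : ‖av c p k‖ = lc p k := by
  unfold av
  rw [norm_mul, Complex.norm_real, Real.norm_eq_abs, abs_of_nonneg (lc_nonneg hp k), norm_prod,
    Finset.prod_eq_one, mul_one]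
  intro j _
  rw [← mul_neg, ← Complex.ofReal_neg, mul_comm, Complex.norm_exp_ofReal_mul_I]

open Classical in
theorem est {y W R : ℕ} (hWR : W ≤ R) (hW : 1 ≤ W) (c : Fin n → ℝ) (B : ℕ → ℝ)
    (hB : ∀ p ∈ PP y, ∑ k ∈ BR n R, lc p k * (p : ℝ) ^ ((1 / 4 : ℝ) * ∑ j, ((k j).natAbs : ℝ)) ≤ B p) :
    ‖(∏ p ∈ PP y, ∑ k ∈ BR n R, av c p k) - TS y W c‖ ≤
      (W : ℝ) ^ (-(1 / 4) : ℝ) * ∏ p ∈ PP y, B p := by
  have hPp : ∀ p ∈ PP y, p.Prime := fun p hp => PP_prime hp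
  have hW0 : (0:ℝ) < W := by exact_mod_cast hW
  have h0 : ∏ p ∈ PP y, ∑ k ∈ BR n R, av c p k =
      ∑ x ∈ Fintype.piFinset fun _ : PP y => BR n R, ∏ p : PP y, av c p (x p) := by
    rw [← Finset.prod_coe_sort (PP y) (fun p => ∑ k ∈ BR n R, av c p k), Finset.prod_univ_sum]
  rw [h0, finite_id hWR, ← Finset.sum_filter_add_sum_filter_not
    (Fintype.piFinset fun _ : PP y => BR n R) (fun x => SZ x ≤ W), add_sub_cancel_left]
  refine (norm_sum_le _ _).trans ?_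
  let G : (PP y → Fin n → ℤ) → ℝ := fun x =>
    ∏ p : PP y, (lc p (x p) * ((p : ℕ) : ℝ) ^ ((1 / 4 : ℝ) * ∑ j, ((x p j).natAbs : ℝ)))
  have hG0 : ∀ x, 0 ≤ G x := fun x => Finset.prod_nonneg fun p _ =>
    mul_nonneg (lc_nonneg (hPp p p.2) _) (Real.rpow_nonneg (Nat.cast_nonneg _) _)
  have hG : ∀ x, G x = (∏ p : PP y, lc p (x p)) * SZ x ^ (1 / 4 : ℝ) := by
    intro x
    change ∏ p : PP y, (lc p (x p) * ((p : ℕ) : ℝ) ^ ((1 / 4 : ℝ) * ∑ j, ((x p j).natAbs : ℝ))) = _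
    rw [Finset.prod_mul_distrib]
    congr 1
    unfold SZ
    rw [← Real.finsetProd_rpow _ _ fun p _ => by positivity]
    apply Finset.prod_congr rfl
    intro p _
    rw [← Real.rpow_natCast, ← Real.rpow_mul (Nat.cast_nonneg _), mul_comm]
    push_cast
    rfl
  have h1 : ∀ x ∈ (Fintype.piFinset fun _ : PP y => BR n R).filter (fun x => ¬ SZ x ≤ W),
      ‖∏ p : PP y, av c p (x p)‖ ≤ (W : ℝ) ^ (-(1 / 4) : ℝ) * G x := by
    intro x hx
    have h2 := not_le.mp (Finset.mem_filter.mp hx).2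
    rw [norm_prod, Finset.prod_congr rfl fun (p : PP y) _ => norm_av (hPp p p.2) c (x p), hG]
    have h3 : 0 ≤ ∏ p : PP y, lc p (x p) := Finset.prod_nonneg fun p _ => lc_nonneg (hPp p p.2) _
    have h4 : 1 ≤ (W : ℝ) ^ (-(1 / 4) : ℝ) * SZ x ^ (1 / 4 : ℝ) := by
      rw [Real.rpow_neg hW0.le, inv_mul_eq_div, one_le_div (Real.rpow_pos_of_pos hW0 _)]
      exact Real.rpow_le_rpow hW0.le h2.le (by norm_num)
    calc ∏ p : PP y, lc p (x p) ≤ (∏ p : PP y, lc p (x p)) *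
          ((W : ℝ) ^ (-(1 / 4) : ℝ) * SZ x ^ (1 / 4 : ℝ)) := le_mul_of_one_le_right h3 h4
      _ = _ := by ring
  refine (Finset.sum_le_sum h1).trans ?_
  rw [← Finset.mul_sum]
  refine mul_le_mul_of_nonneg_left ?_ (Real.rpow_nonneg hW0.le _)
  refine (Finset.sum_le_sum_of_subset_of_nonneg (Finset.filter_subset _ _)
    fun x _ _ => hG0 x).trans ?_
  have h2 : ∑ x ∈ Fintype.piFinset fun _ : PP y => BR n R, G x =
      ∏ p : PP y, ∑ k ∈ BR n R, lc (p : ℕ) k * ((p : ℕ) : ℝ) ^ ((1 / 4 : ℝ) * ∑ j, ((k j).natAbs : ℝ)) :=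
    (Finset.prod_univ_sum (fun _ : PP y => BR n R) (fun (p : PP y) (k : Fin n → ℤ) =>
      lc (p : ℕ) k * ((p : ℕ) : ℝ) ^ ((1 / 4 : ℝ) * ∑ j, ((k j).natAbs : ℝ)))).symm
  rw [h2, ← Finset.prod_coe_sort (PP y) B]
  apply Finset.prod_le_prod
  · intro p _
    exact Finset.sum_nonneg fun k _ =>
      mul_nonneg (lc_nonneg (hPp p p.2) _) (Real.rpow_nonneg (Nat.cast_nonneg _) _)
  · intro p _
    exact hB p p.2

theorem BR_tendsto (n : ℕ) : Tendsto (BR n) atTop atTop := by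
  apply tendsto_atTop_finset_of_monotone
  · intro R R' h
    apply Fintype.piFinset_subset
    intro j
    apply Finset.Icc_subset_Icc
    · have h1 : (R : ℤ) ≤ R' := by exact_mod_cast h
      omega
    · exact_mod_cast h
  · intro k
    refine ⟨∑ j, (k j).natAbs, Fintype.mem_piFinset.mpr fun j => ?_⟩
    have h1 : (k j).natAbs ≤ ∑ j, (k j).natAbs :=
      Finset.single_le_sum (f := fun j => (k j).natAbs) (fun _ _ => Nat.zero_le _)
        (Finset.mem_univ j)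
    rw [Finset.mem_Icc]
    omega

theorem sum_inv_sqrt (y : ℕ) : ∑ m ∈ Finset.range (y + 1), (m : ℝ) ^ (-(1 / 2) : ℝ) ≤ 2 * √y := by
  induction y with
  | zero =>
    rw [zero_add, Finset.sum_range_one, Nat.cast_zero, Real.zero_rpow (by norm_num), Real.sqrt_zero,
      mul_zero]
  | succ y ih =>
    rw [Finset.sum_range_succ]
    have h1 : (0:ℝ) < (y : ℝ) + 1 := by positivity
    have h2 : (((y + 1 : ℕ) : ℝ)) ^ (-(1 / 2) : ℝ) = 1 / √((y : ℝ) + 1) := by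
      rw [Nat.cast_add, Nat.cast_one, Real.rpow_neg h1.le, ← Real.sqrt_eq_rpow, one_div]
    have h3 : 1 / √((y : ℝ) + 1) ≤ 2 * √((y : ℝ) + 1) - 2 * √y := by
      have h4 : 0 < √((y : ℝ) + 1) := Real.sqrt_pos.mpr h1
      have h5 : √(y : ℝ) ≤ √((y : ℝ) + 1) := Real.sqrt_le_sqrt (by linarith)
      have h6 : √((y : ℝ) + 1) ^ 2 = (y : ℝ) + 1 := Real.sq_sqrt h1.le
      have h7 : √(y : ℝ) ^ 2 = y := Real.sq_sqrt (Nat.cast_nonneg _)
      rw [div_le_iff₀ h4]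
      nlinarith [Real.sqrt_nonneg (y : ℝ), sq_nonneg (√((y : ℝ) + 1) - √(y : ℝ))]
    rw [h2]
    push_cast
    linarith

/-- SX-EUT -/
theorem t_EUT (h : S_LSM) : S_EUT := by
  intro n
  obtain ⟨C, hC, hLSM⟩ := h n
  refine ⟨2 * C, by positivity, fun y W c _ hW => ?_⟩
  have hPp : ∀ p ∈ PP y, p.Prime := fun p hp => PP_prime hp
  change ‖(∏ p ∈ PP y, ∑' k : Fin n → ℤ, av c p k) - TS y W c‖ ≤ _
  have hW0 : (0:ℝ) < W := by exact_mod_cast hW
  have hsum : ∀ p ∈ PP y, Summable (fun k : Fin n → ℤ => av c p k) := by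
    intro p hp
    apply Summable.of_norm
    have h1 := (hLSM p (hPp p hp)).1
    refine Summable.of_nonneg_of_le (fun k => norm_nonneg _) (fun k => ?_) h1
    rw [norm_av (hPp p hp)]
    apply le_mul_of_one_le_right (lc_nonneg (hPp p hp) k)
    apply Real.one_le_rpow
    · exact_mod_cast (hPp p hp).one_le
    · positivity
  have hlim : Tendsto (fun R : ℕ => (∏ p ∈ PP y, ∑ k ∈ BR n R, av c p k) - TS y W c) atTop
      (𝓝 ((∏ p ∈ PP y, ∑' k : Fin n → ℤ, av c p k) - TS y W c)) := by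
    apply Tendsto.sub_const
    apply tendsto_finsetProd
    intro p hp
    exact (hsum p hp).hasSum.comp (BR_tendsto n)
  refine le_of_tendsto hlim.norm ?_
  filter_upwards [eventually_ge_atTop W] with R hR
  have h1 := est (y := y) hR hW c (fun p => 1 + C * (p : ℝ) ^ (-(1 / 2) : ℝ)) (fun p hp =>
    ((hLSM p (hPp p hp)).1.sum_le_tsum _ fun k _ =>
      mul_nonneg (lc_nonneg (hPp p hp) _) (Real.rpow_nonneg (Nat.cast_nonneg _) _)).trans
      (hLSM p (hPp p hp)).2)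
  refine h1.trans (mul_le_mul_of_nonneg_left ?_ (Real.rpow_nonneg hW0.le _))
  calc ∏ p ∈ PP y, (1 + C * (p : ℝ) ^ (-(1 / 2) : ℝ))
      ≤ ∏ p ∈ PP y, Real.exp (C * (p : ℝ) ^ (-(1 / 2) : ℝ)) := by
        apply Finset.prod_le_prod
        · intro p _
          positivity
        · intro p _
          rw [add_comm]
          exact Real.add_one_le_exp _
    _ = Real.exp (∑ p ∈ PP y, C * (p : ℝ) ^ (-(1 / 2) : ℝ)) := (Real.exp_sum _ _).symm
    _ ≤ Real.exp (2 * C * √y) := by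
        apply Real.exp_le_exp.mpr
        rw [← Finset.mul_sum]
        have h2 : ∑ p ∈ PP y, (p : ℝ) ^ (-(1 / 2) : ℝ) ≤
            ∑ m ∈ Finset.range (y + 1), (m : ℝ) ^ (-(1 / 2) : ℝ) :=
          Finset.sum_le_sum_of_subset_of_nonneg (Finset.filter_subset _ _)
            fun m _ _ => Real.rpow_nonneg (Nat.cast_nonneg _) _
        have h3 := h2.trans (sum_inv_sqrt y)
        calc C * ∑ p ∈ PP y, (p : ℝ) ^ (-(1 / 2) : ℝ) ≤ C * (2 * √y) :=
              mul_le_mul_of_nonneg_left h3 hC.le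
          _ = 2 * C * √y := by ring

end

end Pool.Agent.Y983.SX.EUT

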